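import Pool.Agent.Work.MP_6c38a7_ag.N.Node

/-!
# Bounded jet level computing minimal log discrepancies in dimension three

For every finite family of positive real exponents `e_1, …, e_s` there is a number `ℓ` such that, over every
algebraically closed field `k`, the minimal log discrepancy at the origin of affine three-space of a multiideal
`𝔞_1^{e_1} ⋯ 𝔞_s^{e_s}` is computed by some `m` with `m_1 + ⋯ + m_s ≤ ℓ`, if one of the following conditions
holds:

* the characteristic is not `2`, and for every `i` either `e_i > 2/3` or `𝔞_i` has order at most `2` at the origin;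
* for every `i` either `e_i > 1` or `𝔞_i` has order at most `1` at the origin;
* the numerical hypothesis `Hyp`.

In particular no condition on the ideals is needed if all exponents are larger than `2/3` and the characteristic
is not `2`, or if all exponents are larger than `1`.
-/

namespace Pool.Agent.Results.MP_6c38a7_ag.ThreefoldLargeExponents

open Pool.Agent.MNJ MvPolynomial

universe u

theorem result {s : ℕ} (e : Fin s → ℝ) (he : ∀ i, 0 < e i) :
    ∃ ℓ : ℕ, ∀ (k : Type u) [Field k] [IsAlgClosed k] (a : Fin s → Ideal (MvPolynomial (Fin 3) k)),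
      (((2 : k) ≠ 0 ∧ ∀ i, 2 / 3 < e i ∨ OrdLe (a i) 2) ∨ (∀ i, 1 < e i ∨ OrdLe (a i) 1) ∨ Hyp k e a) →
      ∃ m : Fin s → ℕ, ∑ i, m i ≤ ℓ ∧ Computes e a m := by
  obtain ⟨ℓ, hℓ⟩ := large_or_double.{u} e he
  refine ⟨ℓ, fun k _ _ a h => hℓ k a ?_⟩
  rcases h with h | h | h
  · exact hyp_of_large e he a (Or.inl h)
  · exact hyp_of_large e he a (Or.inr h)
  · exact h

end Pool.Agent.Results.MP_6c38a7_ag.ThreefoldLargeExponents
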