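import Pool.Agent.Work.MP_6c38a7_ag.Main2

/-!
# Bounded jet level computing minimal log discrepancies in dimension three: small multiplicities

For every finite family of positive real exponents `e_1, …, e_s` there is a number `ℓ` such that, over every
algebraically closed field, the minimal log discrepancy at the origin of affine three-space of a multiideal
`𝔞_1^{e_1} ⋯ 𝔞_s^{e_s}` is computed by some `m` with `m_1 + ⋯ + m_s ≤ ℓ`, if the orders `μ_i` of the ideals at
the origin satisfy `∑ e_i μ_i ≤ 1 + ∑_{i ∈ T} e_i` for a set `T` of indices for which the leading forms of degree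
`μ_i` of the elements of `𝔞_i` are not all `p`-th powers (`GoodLead`). Nothing is asked if one of the ideals is
zero or if `∑ e_i μ_i > 3`.
-/

namespace Pool.Agent.Results.MP_6c38a7_ag.ThreefoldSmallMultiplicity

open Pool.Agent.MNJ MvPolynomial

universe u

theorem result {s : ℕ} (e : Fin s → ℝ) (he : ∀ i, 0 < e i) :
    ∃ ℓ : ℕ, ∀ (k : Type u) [Field k] [IsAlgClosed k] (a : Fin s → Ideal (MvPolynomial (Fin 3) k)),
      (∀ μ : Fin s → ℕ, (∀ i, OrdAt0 (a i) (μ i)) → ∑ i, e i * (μ i : ℝ) ≤ 3 →
        ∃ T : Finset (Fin s), (∀ i ∈ T, GoodLead (a i) (μ i)) ∧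
          ∑ i, e i * (μ i : ℝ) ≤ 1 + ∑ i ∈ T, e i) →
      ∃ m : Fin s → ℕ, ∑ i, m i ≤ ℓ ∧ Computes e a m :=
  main2 e he

end Pool.Agent.Results.MP_6c38a7_ag.ThreefoldSmallMultiplicity
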